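import Mathlib
import Pool.Agent.Run7.h489.NF.Clo
import Pool.Agent.Run7.h489.NF.Conv

set_option autoImplicit false

/-!
# Vojta's inequality for the closed points of degree `d` in the fibres of `Y × P^1 → Y`

Let `K` be a number field and `S` a finite set of places containing the archimedean ones. Let
`F(u, Y)` be a polynomial in `u_1, ..., u_m` and `Y`, of degree `N ≥ 1` in `Y`; it may be irreducible.
Let `𝒴` be the toric variety of the Newton polytope of `F` with respect to `u` (for example `P^m`), with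
the boundary `Δ`. The divisor `D` is the closure of `F = 0` in `X = 𝒴 × P^1`. The condition for a vertex
`a` of the polytope is that `D` meets the fibre over the torus-fixed point which belongs to `a` in `N`
distinct points of the affine line; this is a part of the condition that `D` and the boundary have normal
crossings.

The points are the closed points `P = (u, z)` of degree `d` over rational points `u` of the torus. For
the divisor `Δ × P^1 + D` Vojta's conjecture predicts for `S`-units `u_i` the inequality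
`m_(S, D)(P) ≤ 2 h(z) + d_K(P) + ε (h(u) + h(z)) + O(1)` (the canonical class of `X` is
`-Δ × P^1 - 2 (𝒴 × ∞)`). It is known that `d_K(P) ≤ (2 d - 2) h(z) + O(1)`, with an equality for generic
`z`. We prove the inequality with `(d - 1) h(z)` instead of `d_K(P)`, and so Vojta's inequality for the
points with `d_K(P) ≥ (d - 1) h(z)`, with the restrictions that only the places of `S` are taken into
account where `u` is close to a torus-fixed point (this is the case for all places of `S` for `100%` of
the tuples of `S`-units), and that the minimal polynomial of `z` does not satisfy one of finitely many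
linear equations with coefficients in `K[u]`.
-/

namespace Pool.Agent.Results.MP_71c16a_nt.ClosedPointsOverTori

open Polynomial NumberField IsDedekindDomain Height

section defs

variable {K : Type} [Field K] {m : ℕ}

/-- The monomial `u^a`. -/
def monomialAt (u : Fin m → K) (a : Fin m →₀ ℕ) : K := ∏ i, u i ^ a i

open Classical in
/-- The exponents `a` of the monomials `u^a` which occur in `F(u, Y)`. -/
noncomputable def exponents (F : (MvPolynomial (Fin m) K)[X]) : Finset (Fin m →₀ ℕ) :=
  F.support.biUnion fun j => (F.coeff j).support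

/-- The polynomial `F_a(Y)`, where `F = ∑_a u^a F_a(Y)`. -/
noncomputable def part (F : (MvPolynomial (Fin m) K)[X]) (a : Fin m →₀ ℕ) : K[X] :=
  ∑ j ∈ F.support, monomial j ((F.coeff j).coeff a)

/-- `F_a` has degree `N` and no multiple zeros: `D` meets the fibre over the torus-fixed point of the
vertex `a` in `N` distinct points different from `∞`. -/
def IsTransversalAt (F : (MvPolynomial (Fin m) K)[X]) (N : ℕ) (a : Fin m →₀ ℕ) : Prop :=
  (part F a).natDegree = N ∧ (part F a).Separable

/-- `a` is a vertex of the Newton polytope: it is the only maximum of a linear function. -/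
def IsVertex (F : (MvPolynomial (Fin m) K)[X]) (a : Fin m →₀ ℕ) : Prop :=
  a ∈ exponents F ∧ ∃ θ : Fin m → ℝ, ∀ b ∈ exponents F, b ≠ a →
    ∑ i, (b i : ℝ) * θ i < ∑ i, (a i : ℝ) * θ i

/-- The polynomial `F(u, Y)`. -/
noncomputable def fibre (F : (MvPolynomial (Fin m) K)[X]) (u : Fin m → K) : K[X] :=
  F.map (MvPolynomial.eval u)

/-- For some `a` for which `D` is transversal, all other monomials `u^b` in `F` satisfy
`|u^b|_v ≤ e^(-t) |u^a|_v`: the point `u` is close to the torus-fixed point of the vertex `a`. -/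
def Near (F : (MvPolynomial (Fin m) K)[X]) (N : ℕ) (v : AbsoluteValue K ℝ) (u : Fin m → K)
    (t : ℝ) : Prop :=
  ∃ a ∈ exponents F, IsTransversalAt F N a ∧
    ∀ b ∈ exponents F, b ≠ a → v (monomialAt u b) ≤ Real.exp (-t) * v (monomialAt u a)

end defs

section points

variable {K M : Type} [Field K] [NumberField K] [Field M] [NumberField M] [Algebra K M] {m : ℕ}

/-- The local height of `D` at the closed point `P = (u, z)`: the average of
`log (max_a |u^a| max(1, |y|)^N / |F(u, y)|)` over the `d` conjugates `y` of `z` over `K`. Here `v` is an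
absolute value of `K` and `f` is an extension to a Galois extension `M` of `K` containing `z`. -/
noncomputable def weil (F : (MvPolynomial (Fin m) K)[X]) (N : ℕ) (f : AbsoluteValue M ℝ)
    (v : AbsoluteValue K ℝ) (u : Fin m → K) (z : M) : ℝ :=
  Real.log (⨆ a : (exponents F : Set (Fin m →₀ ℕ)), v (monomialAt u a.1)) +
    (((minpoly K z).aroots M).map fun y =>
      N * Real.log (max 1 (f y)) - Real.log (f (aeval y (fibre F u)))).sum /
        (minpoly K z).natDegree

/-- The height relative to `K`. -/
noncomputable def height (K : Type) {M : Type} [Field K] [Field M] [NumberField M] [Algebra K M]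
    (z : M) : ℝ := logHeight₁ z / Module.finrank K M

/-- The logarithmic discriminant `d_K(z)` of `K(z)`. -/
noncomputable def logDisc (K : Type) {M : Type} [Field K] [NumberField K] [Field M] [NumberField M]
    [Algebra K M] (z : M) : ℝ :=
  Real.log |(discr (IntermediateField.adjoin K {z}) : ℝ)| /
    Module.finrank K (IntermediateField.adjoin K {z}) - Real.log |(discr K : ℝ)|

/-- `w` extends the absolute values of the places in `S` to `M`. -/
def Extends (S : Finset (HeightOneSpectrum (𝓞 K))) (w : AbsoluteValue K ℝ → AbsoluteValue M ℝ) :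
    Prop :=
  (∀ (v : InfinitePlace K) (y : K), w v.1 (algebraMap K M y) = v.1 y) ∧
    ∀ p ∈ S, ∀ y : K, w (FinitePlace.mk p).1 (algebraMap K M y) = (FinitePlace.mk p).1 y

/-- The sum of a function over the places in `S`: the archimedean places, with their
multiplicities, and the given primes. -/
noncomputable def sumS (S : Finset (HeightOneSpectrum (𝓞 K))) (g : AbsoluteValue K ℝ → ℝ) : ℝ :=
  ∑ v : InfinitePlace K, v.mult * g v.1 + ∑ v ∈ S, g (FinitePlace.mk v).1

/-- The contribution of the places outside of `S` to `2 h(x) = ∑ |log |x|_v|`. -/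
noncomputable def outside (S : Finset (HeightOneSpectrum (𝓞 K))) (x : K) : ℝ :=
  2 * logHeight₁ x - sumS S fun v => |Real.log (v x)|

/-- The coefficients `c_i` of the minimal polynomial of `z` do not satisfy one of the equations
`∑ P_i(u) c_i = 0`. -/
def Avoids {d : ℕ} (Z : Finset (Fin (d + 1) → MvPolynomial (Fin m) K)) (u : Fin m → K) (z : M) :
    Prop :=
  ∀ P ∈ Z, ∑ i, MvPolynomial.eval u (P i) * (minpoly K z).coeff i ≠ 0

/-- The number `s` satisfies the inequality of Vojta, with an additional error `E`, if `d_K(z)` is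
replaced by `(d - 1) h(z)`, and so the inequality of Vojta if `d_K(z) ≥ (d - 1) h(z)`. -/
def VojtaBound (d : ℕ) (ε E : ℝ) (u : Fin m → K) (z : M) (s : ℝ) : Prop :=
  s ≤ 2 * height K z + (d - 1) * height K z + ε * (height K z + ∑ i, logHeight₁ (u i)) + E ∧
    ((d - 1) * height K z ≤ logDisc K z →
      s ≤ 2 * height K z + logDisc K z + ε * (height K z + ∑ i, logHeight₁ (u i)) + E)

end points

section holds

variable {K : Type} [Field K] [NumberField K] {m : ℕ}

/-- The inequality holds with the full proximity function `m_(S, D)` for all closed points `(u, z)` of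
degree `d` with `h(z) ≤ R` which avoid the equations `Z`. -/
def Holds (S : Finset (HeightOneSpectrum (𝓞 K))) (F : (MvPolynomial (Fin m) K)[X]) (N d : ℕ)
    (Z : Finset (Fin (d + 1) → MvPolynomial (Fin m) K)) (ε C R : ℝ) (u : Fin m → K) : Prop :=
  ∀ (M : Type) [Field M] [NumberField M] [Algebra K M] [IsGalois K M]
    (w : AbsoluteValue K ℝ → AbsoluteValue M ℝ), Extends S w → ∀ z : M,
    (minpoly K z).natDegree = d → aeval z (fibre F u) ≠ 0 → height K z ≤ R → Avoids Z u z →
      VojtaBound d ε C u z (sumS S fun v => weil F N (w v) v u z)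

end holds

open Classical in
/-- (Heights are relative to `K`.) Let `F` have degree at most `N` in `Y`, let `d ≥ 1` and `ε > 0`.
(1) For every `δ > 0` there are finitely many linear equations `∑ P_i(u) c_i = 0` and `C₁`, `C₂` such
that for all points `u ∈ (K^*)^m` and all `z` of degree `d` over `K` with `F(u, z) ≠ 0` whose minimal
polynomial `∑ c_i Y^i` does not satisfy the equations
`∑_v λ_(D, v)(P) ≤ 2 h(z) + (d - 1) h(z) + ε (h(z) + ∑_i h(u_i)) + C₁ ∑_i outside(u_i) + C₂`, and
`(d - 1) h(z)` may be replaced by `d_K(z)` if `d_K(z) ≥ (d - 1) h(z)`; here `v` runs over the places of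
`S` where `u` is close to a torus-fixed point: `|u^b|_v ≤ e^(-δ (1 + h(u) + h(z))) |u^a|_v`.
(2) The term `outside(x)` is nonnegative, and it vanishes for `S`-units.
(3) Let `#S ≥ 2` and let `D` be transversal for all vertices. For every `η > 0` and `B` there are
finitely many equations and a constant `C` such that for all large `T` the inequality holds with
`m_(S, D)` for all but at most `η N(T)` of the `N(T)` tuples `u ∈ (O_S^*)^m` with all `h(u_i) ≤ T` and
all `z` of degree `d` with `h(z) ≤ B T` which do not satisfy the equations. -/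
theorem result (K : Type) [Field K] [NumberField K] (S : Finset (HeightOneSpectrum (𝓞 K)))
    (m N d : ℕ) (hN : 1 ≤ N) (hd : 1 ≤ d) (F : (MvPolynomial (Fin m) K)[X])
    (hF : F.natDegree ≤ N) (ε : ℝ) (hε : 0 < ε) :
    (∀ δ : ℝ, 0 < δ →
      ∃ (Z : Finset (Fin (d + 1) → MvPolynomial (Fin m) K)) (C₁ C₂ : ℝ), (∀ P ∈ Z, P ≠ 0) ∧
        ∀ (M : Type) [Field M] [NumberField M] [Algebra K M] [IsGalois K M]
          (w : AbsoluteValue K ℝ → AbsoluteValue M ℝ), Extends S w →
          ∀ (u : Fin m → K) (z : M), (∀ i, u i ≠ 0) → (minpoly K z).natDegree = d →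
            aeval z (fibre F u) ≠ 0 → Avoids Z u z →
            VojtaBound d ε (C₁ * ∑ i, outside S (u i) + C₂) u z
              (sumS S fun v =>
                if Near F N v u (δ * (1 + (∑ i, logHeight₁ (u i) + height K z)))
                then weil F N (w v) v u z else 0)) ∧
    (∀ x : K, x ≠ 0 → 0 ≤ outside S x ∧ ∀ t ∈ (S : Set (HeightOneSpectrum (𝓞 K))).unit K,
      x = t → outside S x = 0) ∧
    (2 ≤ Fintype.card (InfinitePlace K) + S.card → F ≠ 0 →
      (∀ a, IsVertex F a → IsTransversalAt F N a) → ∀ η B : ℝ, 0 < η →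
      ∃ (Z : Finset (Fin (d + 1) → MvPolynomial (Fin m) K)) (C T₀ : ℝ), (∀ P ∈ Z, P ≠ 0) ∧
        ∀ T : ℝ, T₀ ≤ T →
          (({u : Fin m → Kˣ | (∀ i, u i ∈ (S : Set (HeightOneSpectrum (𝓞 K))).unit K ∧
              logHeight₁ (u i : K) ≤ T) ∧
            ¬ Holds S F N d Z ε C (B * T) fun i => (u i : K)}.ncard : ℕ) : ℝ) ≤
            η * (({u : Fin m → Kˣ | ∀ i, u i ∈ (S : Set (HeightOneSpectrum (𝓞 K))).unit K ∧
              logHeight₁ (u i : K) ≤ T}.ncard : ℕ) : ℝ)) := by
  have hsum : ∀ g : AbsoluteValue K ℝ → ℝ, sumS S g =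
      ∑ v ∈ Pool.Agent.R404.TC.Sp S, Pool.Agent.W180.OP.wt v * g (Pool.Agent.W180.OP.av v) := by
    intro g
    unfold sumS Pool.Agent.R404.TC.Sp
    rw [Finset.sum_disjSum]
    congr 1
    refine Finset.sum_congr rfl fun v _ => ?_
    show _ = (1 : ℝ) * g (FinitePlace.mk v).1
    rw [one_mul]
  have hex : ∀ x : K, outside S x = Pool.Agent.N63.MT.ex (Pool.Agent.R404.TC.Sp S) x := by
    intro x
    unfold outside Pool.Agent.N63.MT.ex
    rw [hsum]
  have hpol : ∀ u : Fin m → K, Pool.Agent.Run7.h489.TM.pol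
      (Pool.Agent.Run7.h489.NF.toG F) 0 0 u = fibre F u :=
    fun u => Pool.Agent.Run7.h489.NF.pol_toG F u
  have hgp : ∀ a : Fin m →₀ ℕ, Pool.Agent.Run7.h489.TM.gpol (Pool.Agent.Run7.h489.NF.toG F) 0
      (Pool.Agent.Run7.h489.NF.cst a) = part F a := fun a =>
    Pool.Agent.Run7.h489.NF.gpol_toG F a
  have hmono : ∀ (u : Fin m → K) (a : Fin m →₀ ℕ), Pool.Agent.Run7.h489.TM.mono u
      (Pool.Agent.Run7.h489.NF.cst a) = monomialAt u a :=
    fun u a => Pool.Agent.Run7.h489.NF.mono_cst u a
  have hmx : ∀ (f : AbsoluteValue K ℝ) (u : Fin m → K), Pool.Agent.Run7.h489.NF.mx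
      (Pool.Agent.Run7.h489.NF.toG F) f u =
      ⨆ a : (exponents F : Set (Fin m →₀ ℕ)), f (monomialAt u a.1) :=
    fun f u => Pool.Agent.Run7.h489.NF.mx_toG F f u
  have hlv : ∀ (M : Type) [Field M] [NumberField M] [Algebra K M]
      (P : Fin (d + 1) → MvPolynomial (Fin m) K) (u : Fin m → K) (z : M),
      Pool.Agent.N63.MT.lv P u (Pool.Agent.Run7.h489.NF.cfs d (minpoly K z)) =
        ∑ i, MvPolynomial.eval u (P i) * (minpoly K z).coeff i := by
    intro M _ _ _ P u z
    rfl
  have hext : ∀ (M : Type) [Field M] [NumberField M] [Algebra K M]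
      (w : AbsoluteValue K ℝ → AbsoluteValue M ℝ), Extends S w →
      ∀ v ∈ Pool.Agent.R404.TC.Sp S, ∀ y : K, w (Pool.Agent.W180.OP.av v) (algebraMap K M y) =
        Pool.Agent.W180.OP.av v y := by
    intro M _ _ _ w hw v hv y
    rcases v with v | p
    · exact hw.1 v y
    · exact hw.2 p (Pool.Agent.Run7.h489.LV.mem_Sp_inr.1 hv) y
  have hfin : ∀ (M : Type) [Field M] [NumberField M] [Algebra K M] (u : Fin m → K) (z : M)
      (E s : ℝ), s ≤ (d + 1 + ε) * height K z + ε * ∑ i, logHeight₁ (u i) + E →
      VojtaBound d ε E u z s := by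
    intro M _ _ _ u z E s h
    refine ⟨by linarith, fun h' => by linarith⟩
  refine ⟨fun δ hδ => ?_, fun x hx => ⟨?_, ?_⟩, fun hS hF0 hvert η B hη => ?_⟩
  · obtain ⟨𝓜, h𝓜⟩ : ∃ 𝓜 : Finset (Fin m → ℤ), 𝓜 =
      ((exponents F).filter fun a => IsTransversalAt F N a).image
        Pool.Agent.Run7.h489.NF.cst := ⟨_, rfl⟩
    obtain ⟨Z, C₁, C₂, hC₁, hC₂, hZ, hmain⟩ := Pool.Agent.Run7.h489.NF.clo_base (S := S)
      (Pool.Agent.Run7.h489.NF.toG F) hN hd (Pool.Agent.Run7.h489.NF.toG_deg hF) 𝓜 (by
        intro μ hμ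
        rw [h𝓜, Finset.mem_image] at hμ
        obtain ⟨a, ha, rfl⟩ := hμ
        rw [hgp]
        exact (Finset.mem_filter.1 ha).2) hε hδ
    refine ⟨Z, C₁, C₂, hZ, ?_⟩
    intro M _ _ _ _ w hw u z hu hdz hz hoff
    apply hfin
    obtain ⟨t, ht⟩ : ∃ t : ℝ, t = δ * (1 + (∑ i, logHeight₁ (u i) + height K z)) := ⟨_, rfl⟩
    rw [← ht]
    have hch : ∀ v : Pool.Agent.W180.OP.Pl K, ∃ a : Fin m →₀ ℕ,
        Near F N (Pool.Agent.W180.OP.av v) u t → a ∈ exponents F ∧ IsTransversalAt F N a ∧
        ∀ b ∈ exponents F, b ≠ a → Pool.Agent.W180.OP.av v (monomialAt u b) ≤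
          Real.exp (-t) * Pool.Agent.W180.OP.av v (monomialAt u a) := by
      intro v
      by_cases h : Near F N (Pool.Agent.W180.OP.av v) u t
      · obtain ⟨a, ha⟩ := h
        exact ⟨a, fun _ => ha⟩
      · exact ⟨0, fun h' => absurd h' h⟩
    choose a ha using hch
    have hmpos : ∀ (v : Pool.Agent.W180.OP.Pl K) (b : Fin m →₀ ℕ),
        0 < Pool.Agent.W180.OP.av v (monomialAt u b) := fun v b =>
      (Pool.Agent.W180.OP.av v).pos (Finset.prod_ne_zero_iff.2 fun i _ => pow_ne_zero _ (hu i))
    have ht0 : 0 ≤ t := by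
      have h1 : 0 ≤ ∑ i, logHeight₁ (u i) := Finset.sum_nonneg fun _ _ => zero_le_logHeight₁ _
      have h2 : 0 ≤ height K z := div_nonneg (zero_le_logHeight₁ z) (Nat.cast_nonneg _)
      rw [ht]
      positivity
    have h1 := hmain M (fun v => w (Pool.Agent.W180.OP.av v)) (hext M w hw) u z hdz hu
      (by rw [hpol]; exact hz) (by
        intro P hP
        rw [hlv]
        exact hoff P hP)
      ((Pool.Agent.R404.TC.Sp S).filter fun v => Near F N (Pool.Agent.W180.OP.av v) u t)
      (fun v => Pool.Agent.Run7.h489.NF.cst (a v)) (Finset.filter_subset _ _) (by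
        intro v hv
        obtain ⟨h2, h3, h4⟩ := ha v (Finset.mem_filter.1 hv).2
        refine ⟨?_, ?_⟩
        · rw [h𝓜]
          exact Finset.mem_image_of_mem _ (Finset.mem_filter.2 ⟨h2, h3⟩)
        · intro e he hne
          obtain ⟨b, hb1, hb2⟩ := Pool.Agent.Run7.h489.NF.toG_supp he
          have hb3 : b ∈ exponents F := Pool.Agent.Run7.h489.NF.mem_exps.2 ⟨e.2, hb2⟩
          have hb4 : b ≠ a v := by
            rintro rfl
            apply hne
            rw [hb1]
          have h5 := h4 b hb3 hb4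
          have h6 := Real.log_le_log (hmpos v b) h5
          rw [Real.log_mul (Real.exp_pos _).ne' (hmpos v _).ne', Real.log_exp, ht] at h6
          have h7 : e.1 = Pool.Agent.Run7.h489.NF.cst b := by rw [hb1]
          rw [h7, hmono, hmono]
          have h8 : δ * (1 + (∑ i, logHeight₁ (u i) + height K z)) =
              δ * (1 + (Pool.Agent.Run7.h489.TM.hs u + logHeight₁ z / Module.finrank K M)) := rfl
          rw [h8] at h6
          linarith)
    have h2 : sumS S (fun v => if Near F N v u t then weil F N (w v) v u z else 0) =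
        ∑ v ∈ (Pool.Agent.R404.TC.Sp S).filter
            fun v => Near F N (Pool.Agent.W180.OP.av v) u t,
          Pool.Agent.W180.OP.wt v * (Real.log (Pool.Agent.W180.OP.av v
            (Pool.Agent.Run7.h489.TM.mono u (Pool.Agent.Run7.h489.NF.cst (a v)))) +
            Pool.Agent.Run7.h489.NF.cterm (w (Pool.Agent.W180.OP.av v))
              (Pool.Agent.Run7.h489.TM.pol (Pool.Agent.Run7.h489.NF.toG F) 0 0 u) N z / d) := by
      rw [hsum, Finset.sum_filter]
      refine Finset.sum_congr rfl fun v _ => ?_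
      by_cases hv : Near F N (Pool.Agent.W180.OP.av v) u t
      · rw [if_pos hv, if_pos hv]
        obtain ⟨h2, h3, h4⟩ := ha v hv
        have h5 : (⨆ b : (exponents F : Set (Fin m →₀ ℕ)),
            Pool.Agent.W180.OP.av v (monomialAt u b.1)) =
            Pool.Agent.W180.OP.av v (monomialAt u (a v)) := by
          rw [← hmx, ← hmono u (a v)]
          refine Pool.Agent.Run7.h489.NF.mx_eq _ _ u
            (Pool.Agent.Run7.h489.NF.mem_expo1.2 ⟨a v, h2, rfl⟩) ?_
          intro μ hμ
          obtain ⟨b, hb, rfl⟩ := Pool.Agent.Run7.h489.NF.mem_expo1.1 hμ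
          rw [hmono, hmono]
          by_cases hba : b = a v
          · rw [hba]
          · refine (h4 b hb hba).trans ?_
            refine mul_le_of_le_one_left (hmpos v _).le ?_
            exact Real.exp_le_one_iff.2 (by linarith)
        unfold weil Pool.Agent.Run7.h489.NF.cterm
        rw [h5, hdz, hpol, hmono]
      · rw [if_neg hv, if_neg hv, mul_zero]
    rw [h2]
    simp only [hex]
    refine h1.trans (le_of_eq ?_)
    unfold height Pool.Agent.Run7.h489.TM.hs
    ring
  · rw [hex]
    exact (Pool.Agent.N63.MT.ex_facts _ hx).2.2.1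
  · rintro w hw rfl
    rw [hex]
    refine Pool.Agent.N63.MT.ex_unit _ hx fun v hv => ?_
    rcases v with v | v
    · exact absurd (Pool.Agent.Run7.h489.LV.mem_Sp_inl v) hv
    · exact ((Pool.Agent.Run7.h489.LV.isU_iff w).2 hw).2 v
        fun h => hv (Pool.Agent.Run7.h489.LV.mem_Sp_inr.2 h)
  · have hcard : (Pool.Agent.R404.TC.Sp S).card = Fintype.card (InfinitePlace K) + S.card := by
      show (Finset.disjSum _ _).card = _
      rw [Finset.card_disjSum, Finset.card_univ]
    have hG0 : Pool.Agent.Run7.h489.NF.toG F ≠ 0 := by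
      intro h0
      apply hF0
      ext j a
      rw [← Pool.Agent.Run7.h489.NF.toG_apply, h0]
      simp
    obtain ⟨Z, C, T₀, hZ, h⟩ := Pool.Agent.Run7.h489.NF.clo_most S (by rw [hcard]; exact hS)
      (Pool.Agent.Run7.h489.NF.toG F) hN hd (Pool.Agent.Run7.h489.NF.toG_deg hF) hG0 (by
        intro μ hμ
        obtain ⟨a, ha, rfl⟩ := Pool.Agent.Run7.h489.NF.mem_expo1.1 hμ
        rintro ⟨θ, hθ⟩
        rw [hgp]
        refine hvert a ⟨ha, θ, fun b hb hne => ?_⟩
        have h1 := hθ (Pool.Agent.Run7.h489.NF.cst b)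
          (Pool.Agent.Run7.h489.NF.mem_expo1.2 ⟨b, hb, rfl⟩)
          fun h => hne (Pool.Agent.Run7.h489.NF.cst_inj h)
        rwa [Pool.Agent.Run7.h489.NF.dt_cst, Pool.Agent.Run7.h489.NF.dt_cst] at h1) hε hη
      (le_max_right B 0)
    refine ⟨Z, C, max T₀ 0, hZ, fun T hT => ?_⟩
    have hT0 : 0 ≤ T := (le_max_right _ _).trans hT
    let φ : (Fin m → Kˣ) → Fin m → K := fun u i => (u i : K)
    have hφ : Function.Injective φ := fun u u' h => by
      funext i
      exact Units.ext (congrFun h i)
    have hBx : {u : Fin m → Kˣ | ∀ i, u i ∈ (S : Set (HeightOneSpectrum (𝓞 K))).unit K ∧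
        logHeight₁ (u i : K) ≤ T}.ncard = (Pool.Agent.Run7.h489.TM.Bx m S T).card := by
      rw [← Set.ncard_image_of_injective _ hφ, ← Set.ncard_coe_finset]
      congr 1
      ext u
      constructor
      · rintro ⟨u', h2, rfl⟩
        exact Finset.mem_coe.2 (Pool.Agent.Run7.h489.TM.mem_Bx.2 fun i =>
          ⟨(Pool.Agent.Run7.h489.LV.isU_iff (u' i)).2 (h2 i).1, (h2 i).2⟩)
      · intro h2
        have h3 := Pool.Agent.Run7.h489.TM.mem_Bx.1 (Finset.mem_coe.1 h2)
        refine ⟨fun i => Units.mk0 (u i) (h3 i).1.1, fun i => ⟨?_, (h3 i).2⟩, rfl⟩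
        exact (Pool.Agent.Run7.h489.LV.isU_iff _).1 (h3 i).1
    rw [hBx, Pool.Agent.Run7.h489.TM.card_Bx]
    push_cast
    refine le_trans ?_ (h T ((le_max_left _ _).trans hT))
    rw [Nat.cast_le, ← Set.ncard_coe_finset]
    refine Set.ncard_le_ncard_of_injOn φ ?_ hφ.injOn (Finset.finite_toSet _)
    rintro u ⟨hu, hnot⟩
    refine Finset.mem_coe.2 (Finset.mem_filter.2 ⟨Pool.Agent.Run7.h489.TM.mem_Bx.2 fun i =>
      ⟨(Pool.Agent.Run7.h489.LV.isU_iff (u i)).2 (hu i).1, (hu i).2⟩, ?_⟩)
    by_contra hcon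
    apply hnot
    intro M _ _ _ _ w hw z hdz hz hR hoff
    apply hfin
    by_contra hlt
    push Not at hlt
    apply hcon
    refine ⟨M, inferInstance, inferInstance, inferInstance, inferInstance,
      fun v => w (Pool.Agent.W180.OP.av v), z, hext M w hw, hdz, by rw [hpol]; exact hz, ?_, ?_, ?_⟩
    · exact hR.trans (mul_le_mul_of_nonneg_right (le_max_left _ _) hT0)
    · intro P hP
      rw [hlv]
      exact hoff P hP
    · refine lt_of_lt_of_le hlt (le_of_eq ?_)
      rw [hsum]
      refine Finset.sum_congr rfl fun v _ => ?_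
      unfold weil Pool.Agent.Run7.h489.NF.cterm
      rw [hmx, hdz, hpol]

end Pool.Agent.Results.MP_71c16a_nt.ClosedPointsOverTori
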