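import Pool.Agent.Run7.h860.Hd.Main2
import Pool.Agent.Run7.h860.Hd.WR
import Pool.Agent.Run7.h576.HD.DC
import Pool.Agent.Run7.h803.Hd.HE
import Pool.Agent.Run7.h374.Hd.EX
import Pool.Agent.Run7.h374.Hd.LO
import Pool.Agent.Run7.h617.Hd.GP
import Pool.Agent.Run7.h617.Hd.SO
import Pool.Agent.Run7.h639.Hd.TR
import Pool.Agent.Run7.h639.Hd.HR
import Pool.Agent.Run7.h860.Hd.Opt3
import Pool.Agent.Run7.h860.Hd.HI
import Pool.Agent.Run7.h300.Hd.PG
import Pool.Agent.Run7.h459.Hd.ML
import Pool.Agent.Run7.h579.Hd.HP

/-!
# Vojta's inequality on the line with half of the arithmetic discriminant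

`k` any number field, `X = ℙ¹`, `S` any finite set of finite places of `k` (the archimedean places always
count as elements of `S`), `D` any finite set of algebraic numbers (that is of points of `ℙ¹` other than
the point at infinity, which is no restriction).  A point `x ∈ ℙ¹`, other than the point at infinity,
with residue field `L = k(x)` is a generator `x` of a finite extension `L` of `k`; its conjugates are the
`σ(x)`, `σ : L → k̄` over `k`.  `K_X = -2 A`, `h = h_A`, everything is normalised relative to `k`.

Vojta's conjecture says `∑_{v ∈ S} λ_{D,v}(x) - 2 h(x) ≤ ε h(x) + d_k(x) + O(1)` for the points of degree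
`d ≤ r`, where `d_k(x)` is the logarithmic discriminant of `k(x)`.  The theorems of Wirsing (1971)
and Vojta (1992) have the arithmetic discriminant `d_a(x) = (2 d - 2) h(x) + O(1)` in place of
`d_k(x) ≤ d_a(x)`.  Let `cross(x) = ∑_{v ∈ S} d⁻¹ ∑_{z ≠ w} ∑_{a ∈ D} min (λ_{a,v}(z), λ_{a,v}(w))`, `(z, w)`
running over the pairs of different conjugates of `x`: this is the contribution to the arithmetic
discriminant of the pairs of conjugates which are close to the same point of `D`.  We prove:

(1) For ALL `D` the inequality holds with `(d_a(x) - cross(x)) / 2` in place of `d_k(x)`, for all `x` of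
degree `d ≤ r` whose minimal polynomial is not in one of finitely many hyperplanes of the space of the
polynomials of degree at most `d` over `k`; these hyperplanes depend on `d` and `D` only, not on `S` and `ε`.

(2) If `D` is in general position over `k` (after adjoining fewer than `r` points of `D` to `k` all
other points of `D` still have degree more than `r ^ 2`), the inequality holds with
`(d_a(x) - cross(x)) / 2` for ALL `x` of degree at most `r`: there are no exceptional hyperplanes.

(3) If the Galois group acts `r`-fold transitively on `D` and `D` has at least `r + 1` elements,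
the inequality holds with `d_a(x) / 2 = (d - 1) h(x) + O(1)` for ALL `x` of degree at most `r`.

(4) `D` is in general position if the Galois group acts `r`-fold transitively on it and it has at least
`r ^ 2 + r` elements (for instance the zeros of one polynomial of degree `n ≥ r ^ 2 + r` with the
Galois group `S_n` or, for `n ≥ r + 2`, `A_n`).

(5) The factor `1 / 2` is best possible, for every degree: let `k = ℚ` and let `D` contain a real number of
degree more than `r ^ 2` over `ℚ` (`D` is arbitrary otherwise).  There are `x` of degree exactly `r` and of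
arbitrarily large height with `λ_{D,∞}(x) - 2 h(x) ≥ (1 / 2) (2 r - 2) h(x) - C`, `∞` the archimedean place.
So for these `D`, if in general position, `θ = 1 / 2` is the smallest number for which (2) holds (`r ≥ 2`).

The exceptional hyperplanes in (1) cannot be avoided for general `D`: if `D` contains the `2 d` zeros and
poles of a rational function `φ` of degree `d` over `k`, the points `x` of degree `d` for which `φ(x)` is an
`S`-unit have `∑_{v ∈ S} λ_{D,v}(x) = 2 d h(x) + O(1)` and `cross(x) = O(1)`.

Proof.  Let `f` be the minimal polynomial of `x`, in a `k`-space `U` of polynomials of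
degree at most `d`, `dim U = t`.  At each place of `S` choose a basis of the dual of `U` among the Taylor
coefficients at points of `D`.  For `t = d + 1` every set of `t` Taylor coefficients which
is closed under passing to smaller index at the same point is a basis, by Hermite's
interpolation theorem.  For `t ≤ d` and `D` in general position this remains true: the Wronskian of a
basis of `U` is a polynomial over `k` of degree at most `t d`, so it does not vanish at a point of degree
more than `t d`, and the remaining conditions are treated in the same way over the field obtained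
by adjoining this point.  Hence the subspace theorem in `U` (in the starting tree, with forms over the
algebraic closure) bounds the sum of all weights by `max (t, d) / t` times the weight of a basis, that is
by `max (t, d) (1 + ε) h(f)` in all cases, outside of finitely many proper subspaces of `U`, where one
uses induction; the last one contains `f` alone.  For (1) one uses the refinement of Vojta (also in the
starting tree), in which the exceptional hyperplanes depend on the linear forms only.  For (5) take integral
polynomials `f` of degree at most `r` with coefficients at most `Q` and `|f(a)| ≤ K / Q ^ r` (Dirichlet's box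
principle); they are irreducible of degree `r` for large `Q`, since otherwise the upper bound (2), in degrees
less than `r` and with `D = {a}`, for the factors of `f` would contradict Mahler's inequality.
-/

set_option autoImplicit false

open NumberField IsDedekindDomain

namespace Pool.Agent.Results.MP_71c16a_nt.HalfDiscriminant

variable {k : Type} [Field k] [NumberField k]

/-- The Weil function of the point `a` at `z`, with respect to the absolute value `g` of the algebraic
closure of `k`: minus the logarithm of the distance of `z` and `a`, up to a bounded function. -/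
noncomputable def weil (g : AlgebraicClosure k → ℝ) (a z : AlgebraicClosure k) : ℝ :=
  Real.log (max 1 (g z) / g (a - z))

/-- `λ_{D,v}(x)`: the average over the conjugates of `x` of the sum of the Weil functions of the points
of `D`; here `g` extends the absolute value of `v`. -/
noncomputable def prox (g : AlgebraicClosure k → ℝ) (D : Finset (AlgebraicClosure k))
    {L : Type} [Field L] [NumberField L] [Algebra k L] (x : L) : ℝ :=
  (∑ σ : L →ₐ[k] AlgebraicClosure k, ∑ a ∈ D, weil g a (σ x)) / Module.finrank k L

open Classical in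
/-- `d⁻¹ ∑_{z ≠ w} ∑_{a ∈ D} min (λ_{a,v}(z), λ_{a,v}(w))`, the sum over the ordered pairs of different
conjugates `z = σ(x)`, `w = τ(x)`. -/
noncomputable def cross (g : AlgebraicClosure k → ℝ) (D : Finset (AlgebraicClosure k))
    {L : Type} [Field L] [NumberField L] [Algebra k L] (x : L) : ℝ :=
  (∑ σ : L →ₐ[k] AlgebraicClosure k, ∑ τ ∈ Finset.univ.erase σ,
    ∑ a ∈ D, min (weil g a (σ x)) (weil g a (τ x))) / Module.finrank k L

/-- The logarithmic height of `x`, normalised relative to `k`. -/
noncomputable def height (k : Type) [Field k] [NumberField k] {L : Type} [Field L] [NumberField L]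
    [Algebra k L] (x : L) : ℝ :=
  Height.logHeight₁ x / Module.finrank k L

/-- The archimedean places `w` of `k` are extended to the algebraic closure by the embeddings `ψ w`,
the finite places `v` in `S` by the absolute values `F v`. -/
def Extends (ψ : InfinitePlace k → AlgebraicClosure k →+* ℂ) (S : Finset (HeightOneSpectrum (𝓞 k)))
    (F : HeightOneSpectrum (𝓞 k) → AbsoluteValue (AlgebraicClosure k) ℝ) : Prop :=
  (∀ w, InfinitePlace.mk ((ψ w).comp (algebraMap k (AlgebraicClosure k))) = w) ∧
  ∀ v ∈ S, ∀ y : k, F v (algebraMap k (AlgebraicClosure k) y) = FinitePlace.mk v y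

/-- The minimal polynomial of `x` is in none of the hyperplanes `∑ q j * (coefficient j) = 0`,
`q ∈ E d`, where `d` is the degree of `x` over `k`. -/
def Avoids (E : (d : ℕ) → Finset (Fin (d + 1) → k)) {L : Type} [Field L] [NumberField L]
    [Algebra k L] (x : L) : Prop :=
  ∀ q ∈ E (Module.finrank k L),
    ∑ j : Fin (Module.finrank k L + 1), q j * (minpoly k x).coeff j ≠ 0

/-- Vojta's inequality for the points of degree at most `r` which avoid `E`, with
`θ (d_a(x) - κ cross(x))` in place of `d_k(x)`: for some constant `C` and all such `x`, not in `D`,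
`∑_{v ∈ S} λ_{D,v}(x) - 2 h(x) ≤ ε h(x) + θ ((2 d - 2) h(x) - κ cross(x)) + C`. -/
def Inequality (ψ : InfinitePlace k → AlgebraicClosure k →+* ℂ)
    (S : Finset (HeightOneSpectrum (𝓞 k)))
    (F : HeightOneSpectrum (𝓞 k) → AbsoluteValue (AlgebraicClosure k) ℝ)
    (D : Finset (AlgebraicClosure k)) (E : (d : ℕ) → Finset (Fin (d + 1) → k))
    (r : ℕ) (ε θ κ : ℝ) : Prop :=
  ∃ C : ℝ, ∀ (L : Type) [Field L] [NumberField L] [Algebra k L] (x : L),
    IntermediateField.adjoin k {x} = ⊤ → Module.finrank k L ≤ r →
    (∀ a ∈ D, ∀ σ : L →ₐ[k] AlgebraicClosure k, a ≠ σ x) → Avoids E x →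
    (∑ w : InfinitePlace k, (w.mult : ℝ) * prox (fun z => ‖ψ w z‖) D x +
        ∑ v ∈ S, prox (F v) D x) - 2 * height k x ≤
      ε * height k x +
      θ * ((2 * Module.finrank k L - 2) * height k x -
        κ * (∑ w : InfinitePlace k, (w.mult : ℝ) * cross (fun z => ‖ψ w z‖) D x +
          ∑ v ∈ S, cross (F v) D x)) + C

/-- `D` is stable under the Galois group of `k`, which acts `r`-fold transitively on `D`. -/
def Transitive (k : Type) [Field k] (D : Finset (AlgebraicClosure k)) (r : ℕ) : Prop :=
  (∀ σ : AlgebraicClosure k ≃ₐ[k] AlgebraicClosure k, ∀ a ∈ D, σ a ∈ D) ∧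
  ∀ B : Finset (AlgebraicClosure k), B ⊆ D → B.card < r → ∀ a ∈ D, ∀ a' ∈ D, a ∉ B → a' ∉ B →
    ∃ σ : AlgebraicClosure k ≃ₐ[k] AlgebraicClosure k, (∀ b ∈ B, σ b = b) ∧ σ a = a'

/-- General position over `k`: adjoining fewer than `r` points of `D`, all other points of `D` have
degree more than `r ^ 2` over the field obtained. -/
def GeneralPosition (k : Type) [Field k] (D : Finset (AlgebraicClosure k)) (r : ℕ) : Prop :=
  ∀ B : Finset (AlgebraicClosure k), B ⊆ D → B.card < r → ∀ a ∈ D, a ∉ B →
    r ^ 2 < (minpoly (IntermediateField.adjoin k (B : Set (AlgebraicClosure k))) a).natDegree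

/-- The inequality opposite to `Inequality`, with `θ = 1 / 2`, at the single place `g`: for some constant `C`
there are `x` of degree exactly `r` over `k` and of arbitrarily large height, not in `D`, with
`λ_{D,g}(x) - 2 h(x) ≥ (1 / 2) (2 r - 2) h(x) - C`. -/
def Sharp (g : AlgebraicClosure k → ℝ) (D : Finset (AlgebraicClosure k)) (r : ℕ) : Prop :=
  ∃ C : ℝ, ∀ B : ℝ, ∃ (L : Type) (_ : Field L) (_ : NumberField L) (_ : Algebra k L) (x : L),
    IntermediateField.adjoin k {x} = ⊤ ∧ Module.finrank k L = r ∧
    (∀ a ∈ D, ∀ σ : L →ₐ[k] AlgebraicClosure k, a ≠ σ x) ∧ B ≤ height k x ∧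
    1 / 2 * ((2 * Module.finrank k L - 2) * height k x) - C ≤ prox g D x - 2 * height k x

theorem prox_points (g : AlgebraicClosure k → ℝ) (D : Finset (AlgebraicClosure k))
    {L : Type} [Field L] [NumberField L] [Algebra k L] (x : L) :
    Run7.h860.Hd.prox g (Run7.h860.Hd.points D) x = prox g D x := by
  unfold Run7.h860.Hd.prox prox
  simp only [Run7.h860.Hd.sum_points, Run7.h860.Hd.weil, one_mul]
  rfl

theorem cross_points (g : AlgebraicClosure k → ℝ) (D : Finset (AlgebraicClosure k))
    {L : Type} [Field L] [NumberField L] [Algebra k L] (x : L) :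
    Run7.h860.Hd.cross g (Run7.h860.Hd.points D) x = cross g D x := by
  unfold Run7.h860.Hd.cross cross
  simp only [Run7.h860.Hd.sum_points, Run7.h860.Hd.weil, one_mul]
  rfl

theorem result (k : Type) [Field k] [NumberField k] :
    -- (1) general `D`, outside hyperplanes depending on `D` and the degree only
    (∀ D : Finset (AlgebraicClosure k), ∃ E : (d : ℕ) → Finset (Fin (d + 1) → k),
      (∀ d, ∀ q ∈ E d, q ≠ 0) ∧
      ∀ ψ S F, Extends ψ S F → ∀ (r : ℕ) (ε : ℝ), 0 < ε →
        Inequality ψ S F D E r ε (1 / 2) 1) ∧
    -- (2) `D` in general position, no exceptional points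
    (∀ (D : Finset (AlgebraicClosure k)) (r : ℕ), GeneralPosition k D r →
      ∀ ψ S F, Extends ψ S F → ∀ ε : ℝ, 0 < ε →
        Inequality ψ S F D (fun _ => ∅) r ε (1 / 2) 1) ∧
    -- (3) highly transitive `D`, no exceptional points
    (∀ (D : Finset (AlgebraicClosure k)) (r : ℕ), Transitive k D r → r + 1 ≤ D.card →
      ∀ ψ S F, Extends ψ S F → ∀ ε : ℝ, 0 < ε →
        Inequality ψ S F D (fun _ => ∅) r ε (1 / 2) 0) ∧
    -- (4) a sufficient condition for general position
    (∀ (D : Finset (AlgebraicClosure k)) (r : ℕ), Transitive k D r → r ^ 2 + r ≤ D.card →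
      GeneralPosition k D r) ∧
    -- (5) the factor `1 / 2` is best possible, for the field `ℚ` and its archimedean place
    (∀ (D : Finset (AlgebraicClosure ℚ)) (r : ℕ), 0 < r → ∀ ψ : AlgebraicClosure ℚ →+* ℂ,
      ∀ a ∈ D, (ψ a).im = 0 → r ^ 2 < (minpoly ℚ a).natDegree →
        Sharp (k := ℚ) (fun z => ‖ψ z‖) D r) := by
  classical
  refine ⟨?_, ?_, ?_, ?_, ?_⟩
  · intro D
    obtain ⟨E, hE0, hE⟩ := Run7.h860.Hd.main_all k Run7.h803.Hd.t_HE Run7.h617.Hd.t_SO
      Run7.h374.Hd.t_LO _root_.Run7.h576.HD.t_DC Run7.h374.Hd.t_EX D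
    refine ⟨E, hE0, ?_⟩
    intro ψ S F h r ε hε
    obtain ⟨C, hC⟩ := hE ψ h.1 S F h.2 r ε hε
    refine ⟨C, fun L _ _ _ x h1 h2 h3 h4 => ?_⟩
    have h5 := hC L x h1 h2 h3 h4
    simp only [prox_points, cross_points] at h5
    rw [one_mul]
    exact h5
  · intro D r hgen ψ S F h ε hε
    obtain ⟨C, hC⟩ := Run7.h860.Hd.main_gen k ψ h.1 S F h.2 r ε hε
      (Run7.h617.Hd.t_GP Run7.h860.Hd.t_WR) Run7.h803.Hd.t_HE Run7.h617.Hd.t_SO
      Run7.h374.Hd.t_LO _root_.Run7.h576.HD.t_DC Run7.h374.Hd.t_EX D hgen
    refine ⟨C, fun L _ _ _ x h1 h2 h3 _ => ?_⟩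
    have h5 := hC L x h1 h2 h3
    simp only [prox_points, cross_points] at h5
    rw [one_mul]
    exact h5
  · intro D r htr hD ψ S F h ε hε
    obtain ⟨C, hC⟩ := Run7.h860.Hd.main_tr k ψ h.1 S F h.2 r ε hε
      (_root_.Run7.h639.Hd.t_HR Run7.h374.Hd.t_EX) Run7.h803.Hd.t_HE Run7.h374.Hd.t_LO
      _root_.Run7.h576.HD.t_DC D htr hD
    refine ⟨C, fun L _ _ _ x h1 h2 h3 _ => ?_⟩
    have h5 := hC L x h1 h2 h3
    simp only [prox_points] at h5
    rw [zero_mul, sub_zero]
    exact h5
  · intro D r htr hD
    exact _root_.Run7.h639.Hd.t_TR k (AlgebraicClosure k) D r htr hD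
  · intro D r hr ψ a ha him hdeg
    obtain ⟨C, hC⟩ := Run7.h860.Hd.opt Run7.h300.Hd.t_PG Run7.h860.Hd.t_HI Run7.h579.Hd.t_HP
      Run7.h459.Hd.t_ML (Run7.h617.Hd.t_GP Run7.h860.Hd.t_WR) Run7.h803.Hd.t_HE
      Run7.h617.Hd.t_SO Run7.h374.Hd.t_LO _root_.Run7.h576.HD.t_DC Run7.h374.Hd.t_EX ψ D hr a ha
      him (lt_of_lt_of_le hdeg (Run7.h860.Hd.deg_ad0 (k := ℚ) a))
    refine ⟨C, fun B => ?_⟩
    obtain ⟨L, i1, i2, i3, x, hx, hfin, hD, hB, h⟩ := hC B
    have h1 : prox (k := ℚ) (fun z => ‖ψ z‖) D x =
        Run7.h860.Hd.psum (k := ℚ) (fun z => ∑ b ∈ D, Run7.h860.Hd.lw ψ b z) x /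
          Module.finrank ℚ L := rfl
    have h2 : height ℚ x = Height.logHeight₁ x / Module.finrank ℚ L := rfl
    refine ⟨L, i1, i2, i3, x, hx, hfin, fun b hb σ => hD b hb σ, ?_, ?_⟩
    · rw [h2, hfin]
      exact hB
    · rw [h1, h2, hfin]
      linarith

end Pool.Agent.Results.MP_71c16a_nt.HalfDiscriminant
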