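import Pool.Agent.Run7.h316.EQ.HA
import Pool.Agent.Run7.h316.EQ.Typ
import Pool.Agent.Run7.h316.EQ.Cnt

/-!
# The degrees and the Galois groups of all the algebraic points over a semiabelian variety on covers with
# prime, equidistributed, metric or random coefficients

`K` is a number field, `G = E_1 × ⋯ × E_r × G_m^s`, where `E_i` is an elliptic curve `y² = x³ + a_i x` or
`y² = x³ + b_i`, `a_i, b_i ∈ ℤ` (the ranks over the finite extensions of `K` are unbounded). `Φ_i` and
`Λ_(i,x)`, `i = 0, …, n`, are polynomials over `𝓞 K` in the homogeneous coordinates `V` of the `E_i` and the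
torus coordinates `u`, multihomogeneous in `V` of the same multidegree, such that for each `i` the
`Λ_(i,x)` have no common zero on `G(ℂ)`. For `c ∈ (𝓞 K)^N' ≅ ℤ^(N' [K:ℚ])` let

  `φ_c = (Φ_i + ∑_x c_(i,x) Λ_(i,x))_i : G ⇢ ℙ^n`.

Let `L` be a finite extension of `K` such that some archimedean place of `L` is real or lies over a complex
place of `K` (`Comp`; for example `L = K`, or `L` arbitrary if `K` has no real place, or `L` with a real
place), and let `h(t; X) = ∑_i h_i(t) X^i` be a polynomial of degree `e` whose coefficients are forms of the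
same degree in `t = (t_0, …, t_n)` over `𝓞 L`, with Galois group `𝒢 ⊂ S_e` over `L(t)` and over `ℂ(t)`. It
defines a cover `Y → ℙ^n` of degree `e` with monodromy group `𝒢`; let `X_c → G` be its pull back by `φ_c`:
`X_c : h(φ_c(P); X) = 0`.

`Full`: for ALL the points `P` of `G` over `L` whose torus coordinates are `S`-units (for `s = 0`: for all
`P ∈ G(L)`) the polynomial `h(φ_c(P); X)` has degree `e`, no multiple roots, and the Galois group `𝒢` over
`L`; and, if `𝒢` is transitive, ALL the algebraic points `x` of `X_c` over `P` have degree exactly `e` over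
`L`, `[L(x) : L] = e`.

**Theorem.**

Let `c w`, `w ∈ Ω`, be a family of vectors of coefficients and `T M ⊂ Ω` finite sets; `Usually`: for ALL
`L = K(θ)`, ALL `S` and ALL covers `h` (of all degrees, with all monodromy groups) over `L` the proportion of
the `w ∈ T M` for which `Full` does not hold for `c w` tends to zero, `M → ∞`. The property `Usually` is
robust (`Pool.Agent.Run7.h316.EQ.Robust`):

(1) All dominated families have it: there are `C`, `A`, `M` such that for all squarefree `q` prime to `M` at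
most the proportion `C (q / φ(q)) ^ A q ^ (-N' [K:ℚ]) + o(1)` of the `c w`, `w ∈ T M`, is in a given class
modulo `q`. (All equidistributed sequences, along arbitrary sets of times, are dominated, and all their
subfamilies of positive lower density.)
(2) - (4) Metric sequences: `(⌊f_{i,l}(x_i)⌋)_i` for Koksma sequences `f_{i,0}, f_{i,1}, …`,
`(⌊a_{i,l} x_i⌋)_i` for arbitrary sequences of different integers (or of real numbers with a gap) and
`(⌊ξ_i x_i ^ (k_l)⌋)_i`, for almost all `x` (which do not depend on `L`, `S` and `h`).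
(5) Random orbits of groups of integral matrices of determinant one which generate `SL(ℤ/q)` for all `q`
prime to some number (all Zariski dense groups, possibly of infinite index).
(6) Generalised polynomials `(⌊∑_t a_{i,t} l ^ t⌋)_i` at the integers and at the primes `l` of `(M, 2M]`.
(7) PRIME COEFFICIENTS: for all `L`, `S` and `h` the proportion of the vectors `c` of prime numbers `≤ M` for
which `Full` does not hold tends to zero.

So 100 % of the covers `X_c` in these families have no algebraic points over `G(L)` of degree less than `e`,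
although there are infinitely many points `P`, of arbitrarily large height.

Proof. The Mordell-Weil sieve of the projects HG and HA of helper89 (with the contributions listed there;
the theorem for boxes of coefficients is `Pool.Agent.N89.HA.finHA`): for a product `q` of good primes `p`
such that `2(p + 1)` and `p² - 1` divide `M` the points of `G` over `L` fall in at most `M ^ R` classes, and
each of them is compatible with at most the proportion `(1 - δ) ^ (number of the p)` of the coefficient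
vectors modulo `q` if no Frobenius element at a place above one of the `p` is in a given conjugacy class; the
number of the `p` can be much larger than `log M`. So for all `L`, `h` and `S` the exceptional set is strongly
null (`Pool.Agent.Run7.h316.EQ.HA.strongHA`): for all `D`, `A` and `ε > 0` there is a squarefree number `q`
prime to `D` such that at most the proportion `ε (φ(q) / q) ^ A` of the classes modulo `q` contain elements of
it. Metric sequences: `Pool.Agent.N24.KM` (helpers 24, 344, 617, 199, 764, 432, 286); random orbits: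
`Pool.Agent.N24.RW` (helpers 24, 123, 195, 300, 543, 765); generalised polynomials: `Pool.Agent.N666.TM`
(helper666); `Pool.Agent.N918.EQ` (helper918); primes: the prime number theorem for arithmetic progressions
(helper923).
-/

set_option autoImplicit false

namespace Pool.Agent.Results.MP_71c16a_nt.RobustDegrees

open MvPolynomial NumberField
open Pool.Agent.Run7.h316.EQ (StrongNull Rare Robust)

/-- polynomials with coefficients in `O` in the homogeneous coordinates `V_(i,j)`, `i < r`, `j < 3`, of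
points in `r` planes and the coordinates `u_l` of a torus of dimension `s` (the last set of variables is
empty) -/
abbrev Form (O : Type) [CommRing O] (r s : ℕ) : Type :=
  MvPolynomial ((Fin r × Fin 3) ⊕ (Fin s ⊕ Fin 0)) O

/-- homogeneous of degree `d i` in `V_i` -/
def Homog {O : Type} [CommRing O] {r s : ℕ} (F : Form O r s) (d : Fin r → ℕ) : Prop :=
  ∀ μ ∈ F.support, ∀ i, ∑ j, μ (Sum.inl (i, j)) = d i

/-- the value `F(V, u)`; the coefficients are mapped by `φ` -/
noncomputable def val {O k : Type} [CommRing O] [CommRing k] (φ : O →+* k) {r s : ℕ}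
    (F : Form O r s) (V : Fin r → Fin 3 → k) (u : Fin s → k) : k :=
  eval₂ φ (Sum.elim (fun ij => V ij.1 ij.2) (Sum.elim u Fin.elim0)) F

/-- `V` represents a point of `E_1 × ⋯ × E_r`, `E_i : y² = x³ + a_i x + b_i` -/
def OnE {k : Type} [Field k] {r : ℕ} (a b : Fin r → ℤ) (V : Fin r → Fin 3 → k) : Prop :=
  ∀ i, V i ≠ 0 ∧ V i 1 ^ 2 * V i 2 = V i 0 ^ 3 + a i * V i 0 * V i 2 ^ 2 + b i * V i 2 ^ 3

/-- `x` is a unit outside of the prime divisors of `S` -/
def SUnit {L : Type} [Field L] (S : ℕ) (x : L) : Prop :=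
  ∃ n : ℕ, IsIntegral ℤ ((S : L) ^ n * x) ∧ IsIntegral ℤ ((S : L) ^ n * x⁻¹)

/-- the embedding of `𝓞 K` in a field `L ⊃ K`, or in `ℂ` -/
noncomputable def emb {K L : Type} [Field K] [Field L] (σ : K →+* L) : 𝓞 K →+* L :=
  σ.comp (algebraMap (𝓞 K) K)

/-- the coordinates of `φ_c(V, u)`, `c_(i,x) = ∑_j c_(i,x,j) ω_j ∈ 𝓞 K` -/
noncomputable def mapC {K L : Type} [Field K] [NumberField K] [Field L] [Algebra K L] {N r s n : ℕ}
    (ω : Module.Basis (Fin N) ℤ (𝓞 K)) (Φ : Fin (n + 1) → Form (𝓞 K) r s) {ι : Fin (n + 1) → Type}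
    [∀ i, Fintype (ι i)] (Λ : (i : Fin (n + 1)) → ι i → Form (𝓞 K) r s)
    (c : (Σ i, ι i) × Fin N → ℤ) (V : Fin r → Fin 3 → L) (u : Fin s → L) (i : Fin (n + 1)) : L :=
  val (emb (algebraMap K L)) (Φ i) V u + ∑ x, emb (algebraMap K L) (∑ j, c (⟨i, x⟩, j) • ω j) *
    val (emb (algebraMap K L)) (Λ i x) V u

/-- the coefficients of `h(t; X)`, mapped by `φ` -/
noncomputable def spec {O A : Type} [CommRing O] [CommRing A] (φ : O →+* A) {k e : ℕ}
    (h : Fin (e + 1) → MvPolynomial (Fin k) O) (t : Fin k → A) (i : Fin (e + 1)) : A :=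
  eval₂ φ t (h i)

/-- `∑ f_i X^i` is a polynomial of degree `e` with the `e` different roots `x_1, …, x_e` in the algebraic
closure of `F`, and the permutations of the roots given by the automorphisms over `F` are those in `𝒢`, for a
suitable numbering of the roots -/
def GaloisGroup {F : Type} [Field F] {e : ℕ} (f : Fin (e + 1) → F)
    (𝒢 : Subgroup (Equiv.Perm (Fin e))) : Prop :=
  ∃ x : Fin e → AlgebraicClosure F,
    (f (Fin.last e) ≠ 0 ∧ Function.Injective x ∧
      (∑ i, Polynomial.C (f i) * Polynomial.X ^ (i : ℕ)).map (algebraMap F (AlgebraicClosure F)) =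
        Polynomial.C (algebraMap F (AlgebraicClosure F) (f (Fin.last e))) *
          ∏ i, (Polynomial.X - Polynomial.C (x i))) ∧
    ∀ σ : Equiv.Perm (Fin e), σ ∈ 𝒢 ↔
      ∃ τ : AlgebraicClosure F ≃ₐ[F] AlgebraicClosure F, ∀ i, τ (x i) = x (σ i)

/-- the Galois group of `∑ f_i X^i` over `F` is `𝒢`, and if `𝒢` is transitive all the roots have degree
exactly `e` over `F` -/
def FullAt {F : Type} [Field F] {e : ℕ} (f : Fin (e + 1) → F)
    (𝒢 : Subgroup (Equiv.Perm (Fin e))) : Prop :=
  GaloisGroup f 𝒢 ∧ ((∀ i j, ∃ σ ∈ 𝒢, σ i = j) → ∀ z : AlgebraicClosure F,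
    ∑ i, algebraMap F (AlgebraicClosure F) (f i) * z ^ (i : ℕ) = 0 → (minpoly F z).natDegree = e)

/-- the vectors `c` such that for some point of `G` over `L` with torus coordinates in the `S`-units the
polynomial `h(φ_c(P); X)` does not have the Galois group `𝒢` over `L`, or has a root of degree different
from `e` (for transitive `𝒢`) -/
def NotFull {K : Type} (L : Type) [Field K] [NumberField K] [Field L] [Algebra K L] {N r s n e : ℕ}
    (ω : Module.Basis (Fin N) ℤ (𝓞 K)) (a b : Fin r → ℤ) (Φ : Fin (n + 1) → Form (𝓞 K) r s)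
    {ι : Fin (n + 1) → Type} [∀ i, Fintype (ι i)] (Λ : (i : Fin (n + 1)) → ι i → Form (𝓞 K) r s)
    (S : ℕ) (h : Fin (e + 1) → MvPolynomial (Fin (n + 1)) (𝓞 L))
    (𝒢 : Subgroup (Equiv.Perm (Fin e))) : Set ((Σ i, ι i) × Fin N → ℤ) :=
  {c | ∃ (V : Fin r → Fin 3 → L) (u : Fin s → L), OnE a b V ∧ (∀ l, u l ≠ 0 ∧ SUnit S (u l)) ∧
    ¬ FullAt (spec (algebraMap (𝓞 L) L) h (mapC ω Φ Λ c V u)) 𝒢}

/-- some archimedean place of `L` is real, or lies over a complex place of `K` -/
def Comp (K L : Type) [Field K] [Field L] [Algebra K L] : Prop :=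
  ∃ s : L →+* ℂ, (∀ x : L, (s x).im = 0) ∨ ∃ x : K, (s (algebraMap K L x)).im ≠ 0

/-- `h(t; X)` is a polynomial of degree `e` whose coefficients are forms of the same degree in `t` over
`𝓞 L`, with Galois group `𝒢` over `L(t)` and over `ℂ(t)`; more precisely, `𝒢` is also the Galois group of the
restriction `h(y + x v; X)` over `ℂ(x)` for some complex line `y + x v` -/
def Cover {L : Type} [Field L] [NumberField L] {n e : ℕ}
    (h : Fin (e + 1) → MvPolynomial (Fin (n + 1)) (𝓞 L)) (𝒢 : Subgroup (Equiv.Perm (Fin e))) : Prop :=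
  (∃ D : ℕ, ∀ i, (h i).IsHomogeneous D) ∧
  GaloisGroup (fun i => algebraMap (MvPolynomial (Fin (n + 1)) (𝓞 L))
    (FractionRing (MvPolynomial (Fin (n + 1)) (𝓞 L))) (h i)) 𝒢 ∧
  ∃ (σ : L →+* ℂ) (y v : Fin (n + 1) → ℂ),
    GaloisGroup (spec ((RatFunc.C : ℂ →+* RatFunc ℂ).comp (emb σ)) h
      (fun j => RatFunc.C (y j) + RatFunc.C (v j) * RatFunc.X)) 𝒢

/-- For all extensions `L = K(θ)` of `K` as above, all `S ≥ 1` and all covers `h` over `L` with monodromy
group `𝒢` the proportion of the `w` in `T M` for which `c w` is in `NotFull` tends to zero, `M → ∞`. -/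
def Usually {K : Type} [Field K] [NumberField K] {N r s n : ℕ}
    (ω : Module.Basis (Fin N) ℤ (𝓞 K)) (a b : Fin r → ℤ) (Φ : Fin (n + 1) → Form (𝓞 K) r s)
    {ι : Fin (n + 1) → Type} [∀ i, Fintype (ι i)] (Λ : (i : Fin (n + 1)) → ι i → Form (𝓞 K) r s)
    (Ω : Type) (T : ℕ → Finset Ω) (c : Ω → (Σ i, ι i) × Fin N → ℤ) : Prop :=
  ∀ θ : AlgebraicClosure K, Comp K (IntermediateField.adjoin K {θ}) → ∀ S : ℕ, 1 ≤ S →
    ∀ (e : ℕ) (h : Fin (e + 1) → MvPolynomial (Fin (n + 1)) (𝓞 (IntermediateField.adjoin K {θ})))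
      (𝒢 : Subgroup (Equiv.Perm (Fin e))),
      (haveI : FiniteDimensional K (IntermediateField.adjoin K {θ}) :=
        IntermediateField.adjoin.finiteDimensional (Algebra.IsIntegral.isIntegral θ)
       haveI : NumberField (IntermediateField.adjoin K {θ}) := NumberField.of_module_finite K _
       Cover h 𝒢) →
      ∀ ε : ℝ, 0 < ε → ∃ M₀ : ℕ, ∀ M : ℕ, M₀ ≤ M →
        (({w : Ω | w ∈ T M ∧
          c w ∈ NotFull (IntermediateField.adjoin K {θ}) ω a b Φ Λ S h 𝒢}.ncard : ℕ) : ℝ) ≤
          ε * (T M).card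

theorem fullAt_of {F : Type} [Field F] {e : ℕ} {f : Fin (e + 1) → F}
    {𝒢 : Subgroup (Equiv.Perm (Fin e))} (h : GaloisGroup f 𝒢) : FullAt f 𝒢 := by
  classical
  refine ⟨h, fun htr z hz => ?_⟩
  obtain ⟨x, ⟨hx1, hx2, hx3⟩, hx4⟩ := h
  set P : Polynomial F := ∑ i, Polynomial.C (f i) * Polynomial.X ^ (i : ℕ) with hP
  have hev : ∀ y : AlgebraicClosure F, Polynomial.aeval y P =
      ∑ i, algebraMap F (AlgebraicClosure F) (f i) * y ^ (i : ℕ) := by
    intro y
    rw [hP, map_sum]
    refine Finset.sum_congr rfl fun i _ => ?_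
    rw [map_mul, map_pow, Polynomial.aeval_C, Polynomial.aeval_X]
  have hzP : Polynomial.aeval z P = 0 := by rw [hev, hz]
  have hfac : ∀ y : AlgebraicClosure F, Polynomial.aeval y P =
      algebraMap F (AlgebraicClosure F) (f (Fin.last e)) * ∏ i, (y - x i) := by
    intro y
    rw [← Polynomial.eval_map_algebraMap, hx3, Polynomial.eval_mul, Polynomial.eval_C,
      Polynomial.eval_prod]
    simp
  obtain ⟨i₀, hi₀⟩ : ∃ i, z = x i := by
    have h1 := hfac z
    rw [hzP] at h1
    rcases mul_eq_zero.1 h1.symm with h2 | h2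
    · exact absurd h2 ((map_ne_zero _).2 hx1)
    · obtain ⟨i, -, hi⟩ := Finset.prod_eq_zero_iff.1 h2
      exact ⟨i, sub_eq_zero.1 hi⟩
  have hP0 : P ≠ 0 := by
    intro h0
    have h1 : P.coeff e = f (Fin.last e) := by
      rw [hP, Polynomial.finset_sum_coeff, Finset.sum_eq_single (Fin.last e)]
      · simp
      · intro i _ hi
        rw [Polynomial.coeff_C_mul, Polynomial.coeff_X_pow, if_neg, mul_zero]
        intro h2
        exact hi (Fin.ext h2.symm)
      · simp
    rw [h0, Polynomial.coeff_zero] at h1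
    exact hx1 h1.symm
  have hPd : P.natDegree ≤ e := by
    rw [hP]
    refine Polynomial.natDegree_sum_le_of_forall_le _ _ fun i _ => ?_
    refine (Polynomial.natDegree_C_mul_X_pow_le _ _).trans ?_
    have := i.2
    omega
  have hle : (minpoly F z).natDegree ≤ e :=
    (Polynomial.natDegree_le_of_dvd (minpoly.dvd F z hzP) hP0).trans hPd
  have hint : IsIntegral F z := Algebra.IsIntegral.isIntegral z
  have hroots : ∀ j, Polynomial.aeval (x j) (minpoly F z) = 0 := by
    intro j
    obtain ⟨σ, hσ, hσj⟩ := htr i₀ j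
    obtain ⟨τ, hτ⟩ := (hx4 σ).1 hσ
    have h1 : x j = τ z := by rw [hi₀, hτ, hσj]
    rw [h1]
    have h2 := Polynomial.aeval_algHom_apply
      (τ : AlgebraicClosure F →ₐ[F] AlgebraicClosure F) z (minpoly F z)
    rw [minpoly.aeval, map_zero] at h2
    exact h2
  refine le_antisymm hle ?_
  have h3 : (Finset.univ.image x).card ≤ ((minpoly F z).map
      (algebraMap F (AlgebraicClosure F))).natDegree := by
    refine Polynomial.card_le_degree_of_subset_roots ?_
    intro y hy
    rw [Finset.mem_val, Finset.mem_image] at hy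
    obtain ⟨j, -, rfl⟩ := hy
    rw [Polynomial.mem_roots (Polynomial.map_ne_zero (minpoly.ne_zero hint)),
      Polynomial.IsRoot.def, Polynomial.eval_map_algebraMap]
    exact hroots j
  rw [Finset.card_image_of_injective _ hx2, Finset.card_univ, Fintype.card_fin,
    Polynomial.natDegree_map] at h3
  exact h3

theorem result (K : Type) [Field K] [NumberField K] (N : ℕ) (ω : Module.Basis (Fin N) ℤ (𝓞 K))
    (r s n : ℕ) (a b : Fin r → ℤ) (hab : ∀ i, a i * b i = 0 ∧ (a i ≠ 0 ∨ b i ≠ 0))
    (Φ : Fin (n + 1) → Form (𝓞 K) r s) (ι : Fin (n + 1) → Type) [∀ i, Fintype (ι i)]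
    [∀ i, DecidableEq (ι i)] (Λ : (i : Fin (n + 1)) → ι i → Form (𝓞 K) r s)
    (d : Fin r → ℕ) (hΦ : ∀ i, Homog (Φ i) d) (hΛ : ∀ i x, Homog (Λ i x) d) (σ₀ : K →+* ℂ)
    (hbp : ∀ i (V : Fin r → Fin 3 → ℂ) (u : Fin s → ℂ), OnE a b V → (∀ l, u l ≠ 0) →
      ∃ x, val (emb σ₀) (Λ i x) V u ≠ 0) :
    Robust (Usually ω a b Φ Λ) := by
  classical
  have hA : ∀ (L : Type) [Field L] [NumberField L] [Algebra K L], Comp K L → ∀ S : ℕ, 1 ≤ S →
      ∀ (e : ℕ) (h : Fin (e + 1) → MvPolynomial (Fin (n + 1)) (𝓞 L))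
        (𝒢 : Subgroup (Equiv.Perm (Fin e))), Cover h 𝒢 →
          StrongNull (NotFull L ω a b Φ Λ S h 𝒢) := by
    intro L _ _ _ hcmp S hS e h 𝒢 hcov
    obtain ⟨⟨D, hD⟩, h1, σ₁, y, v, h2⟩ := hcov
    have h3 := Pool.Agent.Run7.h316.EQ.HA.strongHA' K L hcmp N ω r s n e D a b hab h hD 𝒢 h1 σ₁ y v
      h2 σ₀ Φ ι Λ d hΦ hΛ (fun i V u hVu => hbp i V u hVu.1 hVu.2) S hS
    refine StrongNull.mono ?_ h3
    rintro c ⟨V, u, hV, hu, hc⟩
    refine ⟨V, fun l => Units.mk0 (u l) (hu l).1, hV, fun l => ?_, fun hg => hc (fullAt_of hg)⟩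
    obtain ⟨m, hm1, hm2⟩ := (hu l).2
    exact ⟨m, hm1, by simpa using hm2⟩
  have hN : Nonempty (Fin N) := ω.index_nonempty
  have hne : Nonempty ((Σ i, ι i) × Fin N) := by
    have hV : ∃ V : Fin r → Fin 3 → ℂ, OnE a b V :=
      ⟨fun _ j => if j = 1 then 1 else 0, fun i => ⟨fun h0 => by
        have := congrFun h0 1
        simp at this, by simp⟩⟩
    obtain ⟨V, hV⟩ := hV
    obtain ⟨x, -⟩ := hbp 0 V (fun _ => 1) hV (fun _ => one_ne_zero)
    exact ⟨⟨⟨0, x⟩, Classical.arbitrary _⟩⟩
  have hfd : ∀ θ : AlgebraicClosure K, FiniteDimensional K (IntermediateField.adjoin K {θ}) :=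
    fun θ => IntermediateField.adjoin.finiteDimensional (Algebra.IsIntegral.isIntegral θ)
  have hnf : ∀ θ : AlgebraicClosure K, NumberField (IntermediateField.adjoin K {θ}) := fun θ =>
    haveI := hfd θ
    NumberField.of_module_finite K _
  have hcK : Countable (AlgebraicClosure K) := Pool.Agent.Run7.h316.EQ.Cnt.countable_cl K
  have hcO : ∀ θ : AlgebraicClosure K, Countable (MvPolynomial (Fin (n + 1))
      (𝓞 (IntermediateField.adjoin K {θ}))) := by
    intro θ
    haveI := hnf θ
    have h1 : Countable (IntermediateField.adjoin K {θ}) :=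
      Pool.Agent.Run7.h316.EQ.Cnt.countable_nf _
    have h2 : Countable (𝓞 (IntermediateField.adjoin K {θ})) :=
      Function.Injective.countable (f := fun x => (x : IntermediateField.adjoin K {θ}))
        (fun x y h => RingOfIntegers.ext h)
    exact Pool.Agent.Run7.h316.EQ.Cnt.countable_mv _ _
  refine Pool.Agent.Run7.h316.EQ.robust_countable
    (I := {i : Σ θ : AlgebraicClosure K, Σ e : ℕ, (Fin (e + 1) → MvPolynomial (Fin (n + 1))
        (𝓞 (IntermediateField.adjoin K {θ}))) × Subgroup (Equiv.Perm (Fin e)) × ℕ //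
      Comp K (IntermediateField.adjoin K {i.1}) ∧ 1 ≤ i.2.2.2.2 ∧
        (haveI := hnf i.1; Cover i.2.2.1 i.2.2.2.1)})
    (fun i => NotFull (IntermediateField.adjoin K {i.1.1}) ω a b Φ Λ i.1.2.2.2.2 i.1.2.2.1
      i.1.2.2.2.1) ?_ _ ?_
  · rintro ⟨⟨θ, e, h, 𝒢, S⟩, h1, h2, h3⟩
    haveI := hnf θ
    exact hA _ h1 S h2 e h 𝒢 h3
  · intro Ω T c hR θ hcmp S hS e h 𝒢 hcov ε hε
    exact hR ⟨⟨θ, e, h, 𝒢, S⟩, hcmp, hS, hcov⟩ ε hε

end Pool.Agent.Results.MP_71c16a_nt.RobustDegrees
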